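import Pool.Agent.BEJ.Stmts

/-!
# Squad BEJ, row YJ0: `y` is a multiple of `J_0`
-/

set_option autoImplicit false

namespace Pool.Agent.BEJ.H23

open Set Filter Topology MeasureTheory
open scoped InnerProductSpace ENNReal
open Pool.Agent.BE01 Pool.Agent.BED Pool.Agent.BEJ

noncomputable section

theorem yj0_zero : j0 0 = 1 := by
  unfold j0
  rw [tsum_eq_single 0]
  · simp [bj]
  · intro k hk
    have : 2 * k ≠ 0 := by omega
    rw [zero_pow this, mul_zero]

/-- uniqueness for the Bessel equation on the half line -/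
theorem yj0_uniq {z z1 z2 : ℝ → ℝ} (h1 : ∀ x, 0 < x → HasDerivAt z (z1 x) x)
    (h2 : ∀ x, 0 < x → HasDerivAt z1 (z2 x) x)
    (h3 : ∀ x, 0 < x → x * z2 x + z1 x + x * z x = 0) {η : ℝ} (hη : 0 < η) (e1 : z η = 0)
    (e2 : z1 η = 0) : ∀ x, 0 < x → z x = 0 := by
  have hE : ∀ x, 0 < x → HasDerivAt (fun x => z x ^ 2 + z1 x ^ 2) (-2 * z1 x ^ 2 / x) x := by
    intro x hx
    have h := ((h1 x hx).pow 2).add ((h2 x hx).pow 2)
    have e : (((2 : ℕ) : ℝ) * z x ^ (2 - 1) * z1 x) + (((2 : ℕ) : ℝ) * z1 x ^ (2 - 1) * z2 x) =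
        -2 * z1 x ^ 2 / x := by
      rw [eq_div_iff hx.ne']
      have := h3 x hx
      push_cast
      norm_num
      linear_combination 2 * z1 x * this
    rw [e] at h
    exact h
  have hF : ∀ x, 0 < x → HasDerivAt (fun x => x ^ 2 * (z x ^ 2 + z1 x ^ 2)) (2 * x * z x ^ 2) x := by
    intro x hx
    have h := (hasDerivAt_pow 2 x).mul (hE x hx)
    have e : ((2 : ℕ) : ℝ) * x ^ (2 - 1) * (z x ^ 2 + z1 x ^ 2) + x ^ 2 * (-2 * z1 x ^ 2 / x) =
        2 * x * z x ^ 2 := by
      push_cast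
      field_simp
      ring
    rw [e] at h
    exact h
  have a1 : AntitoneOn (fun x => z x ^ 2 + z1 x ^ 2) (Ioi 0) := by
    apply antitoneOn_of_deriv_nonpos (convex_Ioi 0)
    · exact fun x hx => (hE x hx).continuousAt.continuousWithinAt
    · rw [interior_Ioi]
      exact fun x hx => (hE x hx).differentiableAt.differentiableWithinAt
    · rw [interior_Ioi]
      intro x hx
      rw [(hE x hx).deriv]
      have hx' : (0 : ℝ) < x := hx
      have : 0 ≤ 2 * z1 x ^ 2 / x := by positivity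
      have e : -2 * z1 x ^ 2 / x = -(2 * z1 x ^ 2 / x) := by ring
      rw [e]
      linarith
  have a2 : MonotoneOn (fun x => x ^ 2 * (z x ^ 2 + z1 x ^ 2)) (Ioi 0) := by
    apply monotoneOn_of_deriv_nonneg (convex_Ioi 0)
    · exact fun x hx => (hF x hx).continuousAt.continuousWithinAt
    · rw [interior_Ioi]
      exact fun x hx => (hF x hx).differentiableAt.differentiableWithinAt
    · rw [interior_Ioi]
      intro x hx
      rw [(hF x hx).deriv]
      have hx' : (0 : ℝ) < x := hx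
      positivity
  intro x hx
  rcases le_total η x with h | h
  · have h4 := a1 hη hx h
    simp only [e1, e2] at h4
    have h5 : z x ^ 2 ≤ 0 := by nlinarith [sq_nonneg (z1 x)]
    exact pow_eq_zero_iff (two_ne_zero) |>.1 (le_antisymm h5 (sq_nonneg _))
  · have h4 := a2 hx hη h
    simp only [e1, e2] at h4
    have h5 : 0 < x ^ 2 := by positivity
    have h6 : x ^ 2 * (z x ^ 2 + z1 x ^ 2) ≤ 0 := by
      refine h4.trans (le_of_eq ?_)
      ring
    have h7 : z x ^ 2 + z1 x ^ 2 ≤ 0 := by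
      by_contra hc
      push Not at hc
      have := mul_pos h5 hc
      linarith
    have h8 : z x ^ 2 ≤ 0 := by nlinarith [sq_nonneg (z1 x)]
    exact pow_eq_zero_iff (two_ne_zero) |>.1 (le_antisymm h8 (sq_nonneg _))

theorem yj0_exp : Complex.exp (-(Real.pi / 4 * Complex.I)) =
    -Complex.I * Complex.exp (Real.pi / 4 * Complex.I) := by
  have e : -((Real.pi : ℂ) / 4 * Complex.I) =
      (Real.pi : ℂ) / 4 * Complex.I + (-((Real.pi : ℂ) / 2)) * Complex.I := by ring
  rw [e, Complex.exp_add, Complex.exp_mul_I (-((Real.pi : ℂ) / 2)), Complex.cos_neg,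
    Complex.sin_neg, Complex.cos_pi_div_two, Complex.sin_pi_div_two]
  ring

theorem yj0 (hJ : JdeStmt) (hY : YdeStmt) (hL : YlzStmt) (hW : WasStmt) : Yj0Stmt := by
  obtain ⟨hJ1, hJ2, hJ3, -, hJ5, hJ6⟩ := hJ
  obtain ⟨⟨C1, hC1⟩, C2, hC2⟩ := hL
  -- the Wronskian
  have hder : ∀ x, 0 < x → HasDerivAt (fun x => x * (yy x * deriv j0 x - y1 x * j0 x)) 0 x := by
    intro x hx
    obtain ⟨g1, g2, g3⟩ := hY x hx
    have h := (hasDerivAt_id x).mul ((g1.mul (hJ2 x)).sub (g2.mul (hJ1 x)))
    have e : 1 * (yy x * deriv j0 x - y1 x * j0 x) +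
        id x * ((y1 x * deriv j0 x + yy x * deriv (deriv j0) x) -
          (y2 x * j0 x + y1 x * deriv j0 x)) = 0 := by
      simp only [id]
      linear_combination yy x * hJ3 x - j0 x * g3
    have h' := h.congr_deriv e
    exact h'
  have hconst : ∀ x, 0 < x → x * (yy x * deriv j0 x - y1 x * j0 x) =
      1 * (yy 1 * deriv j0 1 - y1 1 * j0 1) := by
    intro x hx
    exact isOpen_Ioi.is_const_of_deriv_eq_zero isPreconnected_Ioi
      (fun y hy => (hder y hy).differentiableAt.differentiableWithinAt)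
      (fun y hy => (hder y hy).deriv) hx (show (0 : ℝ) < 1 from one_pos)
  have hj2 : ∀ x, 0 < x → x ≤ 1 → |j0 x| ≤ 2 := by
    intro x hx hx1
    have h := hJ6 x 0
    rw [yj0_zero, sub_zero, abs_of_pos hx] at h
    have h2 := abs_le.1 h
    rw [abs_le]
    constructor <;> linarith [h2.1, h2.2]
  have hzero : 1 * (yy 1 * deriv j0 1 - y1 1 * j0 1) = 0 := by
    set w : ℝ := 1 * (yy 1 * deriv j0 1 - y1 1 * j0 1) with hw
    have hb : ∀ x, 0 < x → x ≤ 1 → |w| ≤ |C1| * x + |C2| * Real.sqrt x * 2 := by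
      intro x hx hx1
      rw [← hconst x hx]
      have e : x * (yy x * deriv j0 x - y1 x * j0 x) =
          x * yy x * deriv j0 x - (x * y1 x) * j0 x := by ring
      rw [e]
      refine (abs_sub _ _).trans (add_le_add ?_ ?_)
      · rw [abs_mul, abs_mul, abs_of_pos hx]
        have h1 := hC1 x hx hx1
        have h2 := hJ5 x
        calc x * |yy x| * |deriv j0 x| ≤ x * |C1| * 1 := by
              apply mul_le_mul _ h2 (abs_nonneg _) (by positivity)
              exact mul_le_mul_of_nonneg_left (h1.trans (le_abs_self _)) hx.le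
          _ = |C1| * x := by ring
      · rw [abs_mul]
        have h1 := hC2 x hx hx1
        apply mul_le_mul _ (hj2 x hx hx1) (abs_nonneg _) (by positivity)
        exact h1.trans (mul_le_mul_of_nonneg_right (le_abs_self _) (Real.sqrt_nonneg _))
    have hlim : Tendsto (fun x : ℝ => |C1| * x + |C2| * Real.sqrt x * 2) (𝓝[>] 0) (𝓝 0) := by
      have hc : Continuous (fun x : ℝ => |C1| * x + |C2| * Real.sqrt x * 2) := by
        fun_prop
      have h := (hc.tendsto 0).mono_left (nhdsWithin_le_nhds (s := Ioi 0))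
      simpa using h
    have hle : |w| ≤ 0 := by
      refine ge_of_tendsto hlim ?_
      have : Ioc (0 : ℝ) 1 ∈ 𝓝[>] (0 : ℝ) := Ioc_mem_nhdsGT one_pos
      filter_upwards [this] with x hx
      exact hb x hx.1 hx.2
    exact abs_eq_zero.1 (le_antisymm hle (abs_nonneg _))
  have hWr : ∀ x, 0 < x → yy x * deriv j0 x = y1 x * j0 x := by
    intro x hx
    have h := hconst x hx
    rw [hzero] at h
    have := (mul_eq_zero.1 h).resolve_left hx.ne'
    linarith
  have hη : (0 : ℝ) < 1 / 2 := by norm_num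
  have hjη : 0 < j0 (1 / 2) := by
    have h := hJ6 (1 / 2) 0
    rw [yj0_zero, sub_zero, abs_of_pos hη] at h
    have := (abs_le.1 h).1
    linarith
  set c : ℝ := yy (1 / 2) / j0 (1 / 2) with hc
  have hmain : ∀ x, 0 < x → yy x - c * j0 x = 0 := by
    apply yj0_uniq (z := fun x => yy x - c * j0 x) (z1 := fun x => y1 x - c * deriv j0 x)
      (z2 := fun x => y2 x - c * deriv (deriv j0) x) _ _ _ hη
    · show yy (1 / 2) - c * j0 (1 / 2) = 0
      rw [hc, div_mul_cancel₀ _ hjη.ne', sub_self]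
    · show y1 (1 / 2) - c * deriv j0 (1 / 2) = 0
      have h := hWr (1 / 2) hη
      rw [hc, div_mul_eq_mul_div, h, mul_div_cancel_right₀ _ hjη.ne', sub_self]
    · intro x hx
      exact (hY x hx).1.sub ((hJ1 x).const_mul c)
    · intro x hx
      exact (hY x hx).2.1.sub ((hJ2 x).const_mul c)
    · intro x hx
      show x * (y2 x - c * deriv (deriv j0) x) + (y1 x - c * deriv j0 x) +
        x * (yy x - c * j0 x) = 0
      linear_combination (hY x hx).2.2 - c * hJ3 x
  refine ⟨c, ?_, fun x hx => sub_eq_zero.1 (hmain x hx)⟩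
  intro hc0
  obtain ⟨C, hC⟩ := hW
  obtain ⟨m, hm⟩ := exists_nat_ge (max 1 (2 * |C|))
  set x : ℝ := Real.pi / 4 + m * (2 * Real.pi) with hx
  have hm1 : (1 : ℝ) ≤ m := (le_max_left _ _).trans hm
  have hm2 : 2 * |C| ≤ m := (le_max_right _ _).trans hm
  have hxm : (m : ℝ) ≤ x := by
    have := Real.pi_gt_three
    rw [hx]
    nlinarith
  have hx1 : 1 ≤ x := hm1.trans hxm
  have hx0 : 0 < x := one_pos.trans_le hx1
  have hyy : yy x = 0 := by
    have := hmain x hx0
    rw [hc0, zero_mul, sub_zero] at this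
    exact this
  have hexp : Complex.exp ((x : ℂ) * Complex.I) = Complex.exp (Real.pi / 4 * Complex.I) := by
    have e : (x : ℂ) * Complex.I = Real.pi / 4 * Complex.I + m * (2 * Real.pi * Complex.I) := by
      rw [hx]
      push_cast
      ring
    rw [e, Complex.exp_add, Complex.exp_nat_mul_two_pi_mul_I, mul_one]
  have hA : (((2 * Real.sqrt (x / Real.pi) : ℝ) : ℂ) *
      Complex.exp (-(Real.pi / 4 * Complex.I)) * QQ 0 x).re = 0 := by
    rw [yj0_exp, ← hexp]
    have e : ((2 * Real.sqrt (x / Real.pi) : ℝ) : ℂ) *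
        (-Complex.I * Complex.exp ((x : ℂ) * Complex.I)) * QQ 0 x =
        ((2 * Real.sqrt (x / Real.pi) : ℝ) : ℂ) *
          (-Complex.I * (Complex.exp ((x : ℂ) * Complex.I) * QQ 0 x)) := by ring
    rw [e, Complex.re_ofReal_mul]
    have e2 : (-Complex.I * (Complex.exp ((x : ℂ) * Complex.I) * QQ 0 x)).re = yy x := by
      rw [neg_mul, Complex.neg_re, Complex.I_mul_re, neg_neg]
      rfl
    rw [e2, hyy, mul_zero]
  have hv : (1 - Complex.I / (8 * (x : ℂ)) - 9 / (128 * (x : ℂ) ^ 2)).re =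
      1 - 9 / (128 * x ^ 2) := by
    have hxc : (x : ℂ) ≠ 0 := by exact_mod_cast hx0.ne'
    have e : (1 - Complex.I / (8 * (x : ℂ)) - 9 / (128 * (x : ℂ) ^ 2)) =
        ((1 - 9 / (128 * x ^ 2) : ℝ) : ℂ) - ((1 / (8 * x) : ℝ) : ℂ) * Complex.I := by
      push_cast
      ring
    rw [e, Complex.sub_re, Complex.ofReal_re, Complex.re_ofReal_mul, Complex.I_re, mul_zero,
      sub_zero]
  have hfin := (Complex.abs_re_le_norm _).trans (hC x hx1)
  rw [Complex.sub_re, hA, hv, zero_sub, abs_neg] at hfin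
  have h9 : 9 / (128 * x ^ 2) ≤ 9 / 128 := by
    apply div_le_div_of_nonneg_left (by norm_num) (by norm_num)
    nlinarith
  have h10 : C / x ^ 3 ≤ 1 / 2 := by
    have hx3 : x ≤ x ^ 3 := by
      calc x = x ^ 1 := (pow_one x).symm
        _ ≤ x ^ 3 := pow_le_pow_right₀ hx1 (by norm_num)
    rw [div_le_iff₀ (by positivity)]
    have : C ≤ |C| := le_abs_self C
    linarith
  have h11 := (le_abs_self _).trans hfin
  linarith

end

end Pool.Agent.BEJ.H23
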